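import Pool.Agent.P8H67.TU.Stm
import Pool.Agent.Y759.TS.Kol

/-! Project TU, package CENT (helper97): a nontrivial group of unipotent affine maps has a nontrivial centre -/

set_option autoImplicit false

namespace Pool.Agent.P8H97.TU

open Matrix

section
variable {G : Type} [Group G] {n : ℕ} (ρ : G →* GL (Fin n) ℝ)

/-- the span of the `ρ g - 1` -/
def II : Submodule ℝ (Matrix (Fin n) (Fin n) ℝ) :=
  Submodule.span ℝ (Set.range fun g : G => (ρ g : Matrix (Fin n) (Fin n) ℝ) - 1)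

lemma II_right {x : Matrix (Fin n) (Fin n) ℝ} (hx : x ∈ II ρ) (h : G) :
    x * (ρ h : Matrix (Fin n) (Fin n) ℝ) ∈ II ρ := by
  unfold II at hx ⊢
  induction hx using Submodule.span_induction with
  | mem x hx =>
    obtain ⟨g, rfl⟩ := hx
    have h1 : ((ρ g : Matrix (Fin n) (Fin n) ℝ) - 1) * (ρ h : Matrix (Fin n) (Fin n) ℝ) =
        ((ρ (g * h) : Matrix (Fin n) (Fin n) ℝ) - 1) - ((ρ h : Matrix (Fin n) (Fin n) ℝ) - 1) := by
      rw [map_mul, Units.val_mul, sub_mul, one_mul]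
      abel
    show ((ρ g : Matrix (Fin n) (Fin n) ℝ) - 1) * (ρ h : Matrix (Fin n) (Fin n) ℝ) ∈ _
    rw [h1]
    exact Submodule.sub_mem _ (Submodule.subset_span ⟨_, rfl⟩) (Submodule.subset_span ⟨_, rfl⟩)
  | zero => rw [zero_mul]; exact Submodule.zero_mem _
  | add x y _ _ hx hy => rw [add_mul]; exact Submodule.add_mem _ hx hy
  | smul a x _ hx => rw [smul_mul_assoc]; exact Submodule.smul_mem _ _ hx

lemma mul_right_mem (J : Submodule ℝ (Matrix (Fin n) (Fin n) ℝ)) {x : Matrix (Fin n) (Fin n) ℝ}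
    (hx : x ∈ J * II ρ) (h : G) : x * (ρ h : Matrix (Fin n) (Fin n) ℝ) ∈ J * II ρ := by
  refine Submodule.mul_induction_on hx (fun a ha b hb => ?_) (fun x y hx hy => ?_)
  · rw [mul_assoc]
    exact Submodule.mul_mem_mul ha (II_right ρ hb h)
  · rw [add_mul]
    exact Submodule.add_mem _ hx hy

lemma II_pow (hK : ∀ g : Fin n → G,
    (List.ofFn fun i => (ρ (g i) : Matrix (Fin n) (Fin n) ℝ) - 1).prod = 0) : II ρ ^ n = ⊥ := by
  unfold II
  rw [Submodule.span_pow, Submodule.span_eq_bot]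
  intro x hx
  rw [Set.mem_pow] at hx
  obtain ⟨f, rfl⟩ := hx
  have h1 : ∀ i, ∃ g : G, (ρ g : Matrix (Fin n) (Fin n) ℝ) - 1 = (f i : Matrix (Fin n) (Fin n) ℝ) :=
    fun i => (f i).2
  choose g hg using h1
  have h2 := hK g
  simp only [hg] at h2
  exact h2

theorem exists_central [Nontrivial G] (hinj : ∀ g, ρ g = 1 → g = 1) (hK : ∀ g : Fin n → G,
    (List.ofFn fun i => (ρ (g i) : Matrix (Fin n) (Fin n) ℝ) - 1).prod = 0) :
    ∃ z : G, z ≠ 1 ∧ ∀ g : G, g * z = z * g := by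
  classical
  have hQ : ∃ m : ℕ, ¬ ∃ z : G, z ≠ 1 ∧ (ρ z : Matrix (Fin n) (Fin n) ℝ) - 1 ∈ II ρ ^ (m + 1) := by
    refine ⟨n, ?_⟩
    rintro ⟨z, hz, h1⟩
    rw [pow_succ, II_pow ρ hK, Submodule.bot_mul, Submodule.mem_bot, sub_eq_zero] at h1
    exact hz (hinj z (Units.ext h1))
  obtain ⟨m0, hm0⟩ : ∃ m0, m0 = Nat.find hQ := ⟨_, rfl⟩
  have h0 := Nat.find_spec hQ
  rw [← hm0] at h0
  have hpos : m0 ≠ 0 := by
    intro h
    rw [h] at h0
    obtain ⟨z, hz⟩ := exists_ne (1 : G)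
    refine h0 ⟨z, hz, ?_⟩
    rw [zero_add, pow_one]
    exact Submodule.subset_span ⟨z, rfl⟩
  obtain ⟨m, rfl⟩ := Nat.exists_eq_succ_of_ne_zero hpos
  have h1 : ∃ z : G, z ≠ 1 ∧ (ρ z : Matrix (Fin n) (Fin n) ℝ) - 1 ∈ II ρ ^ (m + 1) := by
    by_contra hc
    have h2 := Nat.find_min' hQ hc
    rw [← hm0] at h2
    omega
  obtain ⟨z, hz, hzI⟩ := h1
  refine ⟨z, hz, fun g => ?_⟩
  by_contra hne
  refine h0 ⟨g * z * (z * g)⁻¹, fun h => hne ?_, ?_⟩
  · rwa [mul_inv_eq_one] at h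
  · have e1 : (ρ (g * z * (z * g)⁻¹) : Matrix (Fin n) (Fin n) ℝ) - 1 =
        (((ρ g : Matrix (Fin n) (Fin n) ℝ) - 1) * ((ρ z : Matrix (Fin n) (Fin n) ℝ) - 1) -
          ((ρ z : Matrix (Fin n) (Fin n) ℝ) - 1) * ((ρ g : Matrix (Fin n) (Fin n) ℝ) - 1)) *
          (ρ (z * g)⁻¹ : Matrix (Fin n) (Fin n) ℝ) := by
      have e2 : (ρ z : Matrix (Fin n) (Fin n) ℝ) * (ρ g : Matrix (Fin n) (Fin n) ℝ) *
          (ρ (z * g)⁻¹ : Matrix (Fin n) (Fin n) ℝ) = 1 := by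
        rw [← Units.val_mul, ← Units.val_mul, ← map_mul, ← map_mul, mul_inv_cancel, map_one,
          Units.val_one]
      have e3 : ((ρ g : Matrix (Fin n) (Fin n) ℝ) - 1) * ((ρ z : Matrix (Fin n) (Fin n) ℝ) - 1) -
          ((ρ z : Matrix (Fin n) (Fin n) ℝ) - 1) * ((ρ g : Matrix (Fin n) (Fin n) ℝ) - 1) =
          (ρ g : Matrix (Fin n) (Fin n) ℝ) * (ρ z : Matrix (Fin n) (Fin n) ℝ) -
          (ρ z : Matrix (Fin n) (Fin n) ℝ) * (ρ g : Matrix (Fin n) (Fin n) ℝ) := by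
        noncomm_ring
      rw [e3, sub_mul, e2, map_mul, map_mul, Units.val_mul, Units.val_mul]
    rw [e1, show m.succ + 1 = (m + 1) + 1 from rfl, pow_succ]
    refine mul_right_mem ρ _ (Submodule.sub_mem _ ?_ ?_) _
    · rw [← pow_succ, pow_succ']
      exact Submodule.mul_mem_mul (Submodule.subset_span ⟨g, rfl⟩) hzI
    · exact Submodule.mul_mem_mul hzI (Submodule.subset_span ⟨g, rfl⟩)

end

section
variable {E G : Type} [NormedAddCommGroup E] [NormedSpace ℝ E] [Group G]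

lemma aff_eq (a : E ≃ᵃ[ℝ] E) (p : E) : a p = a.linear p + a 0 := by
  have h := a.map_vadd 0 p
  simp only [vadd_eq_add, add_zero] at h
  exact h

/-- the linear map of `E × ℝ` of an affine map -/
noncomputable def lin1 (a : E ≃ᵃ[ℝ] E) : Module.End ℝ (E × ℝ) :=
  ((a.linear : E →ₗ[ℝ] E).comp (LinearMap.fst ℝ E ℝ) +
    (LinearMap.snd ℝ E ℝ).smulRight (a 0)).prod (LinearMap.snd ℝ E ℝ)

lemma lin1_apply (a : E ≃ᵃ[ℝ] E) (v : E) (t : ℝ) : lin1 a (v, t) = (a.linear v + t • a 0, t) := rfl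

lemma lin1_mul (a b : E ≃ᵃ[ℝ] E) : lin1 (a * b) = lin1 a * lin1 b := by
  refine LinearMap.ext fun p => ?_
  obtain ⟨v, t⟩ := p
  show lin1 (a * b) (v, t) = lin1 a (lin1 b (v, t))
  rw [lin1_apply, lin1_apply, lin1_apply]
  refine Prod.ext ?_ rfl
  show (a * b).linear v + t • (a * b) 0 = a.linear (b.linear v + t • b 0) + t • a 0
  have h1 : (a * b) (0 : E) = a (b 0) := rfl
  have h2 : (a * b).linear v = a.linear (b.linear v) := rfl
  rw [h1, h2, aff_eq a (b 0), map_add, map_smul, smul_add, add_assoc]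

lemma lin1_one : lin1 (1 : E ≃ᵃ[ℝ] E) = 1 := by
  refine LinearMap.ext fun p => ?_
  obtain ⟨v, t⟩ := p
  rw [lin1_apply]
  have h1 : (1 : E ≃ᵃ[ℝ] E) (0 : E) = 0 := rfl
  have h2 : (1 : E ≃ᵃ[ℝ] E).linear v = v := rfl
  rw [h1, h2, smul_zero, add_zero]
  rfl

lemma lin1_inj {a : E ≃ᵃ[ℝ] E} (h : lin1 a = 1) : a = 1 := by
  refine AffineEquiv.ext fun p => ?_
  have h1 : lin1 a (p, 1) = (p, 1) := by rw [h]; rfl
  rw [lin1_apply, one_smul, ← aff_eq] at h1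
  exact congrArg Prod.fst h1

/-- the nilpotent part -/
noncomputable def nl (a : E ≃ᵃ[ℝ] E) : Module.End ℝ E := (a.linear : E →ₗ[ℝ] E) - LinearMap.id

lemma nl_apply (a : E ≃ᵃ[ℝ] E) (v : E) : nl a v = a.linear v - v := rfl

lemma lin1_pow (a : E ≃ᵃ[ℝ] E) (k : ℕ) (p : E × ℝ) : ((lin1 a - 1) ^ (k + 1)) p =
    (((nl a) ^ k) (nl a p.1 + p.2 • a 0), 0) := by
  induction k with
  | zero =>
    obtain ⟨v, t⟩ := p
    rw [zero_add, pow_one, pow_zero]
    show lin1 a (v, t) - (v, t) = _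
    rw [lin1_apply]
    refine Prod.ext ?_ ?_
    · show a.linear v + t • a 0 - v = a.linear v - v + t • a 0
      abel
    · show t - t = 0
      exact sub_self t
  | succ k ih =>
    rw [pow_succ', Module.End.mul_apply, ih, pow_succ', Module.End.mul_apply]
    obtain ⟨w, hw⟩ : ∃ w, w = ((nl a) ^ k) (nl a p.1 + p.2 • a 0) := ⟨_, rfl⟩
    rw [← hw]
    show lin1 a (w, 0) - (w, 0) = (nl a w, 0)
    rw [lin1_apply, zero_smul, add_zero, nl_apply]
    refine Prod.ext rfl ?_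
    show (0 : ℝ) - 0 = 0
    exact sub_zero 0

lemma lin1_nil {a : E ≃ᵃ[ℝ] E} (h : IsNilpotent (nl a)) : IsNilpotent (lin1 a - 1) := by
  obtain ⟨k, hk⟩ := h
  refine ⟨k + 1, LinearMap.ext fun p => ?_⟩
  rw [lin1_pow, hk]
  rfl

end

theorem cent : Pool.Agent.P8H67.TU.S_CENT := by
  intro E G _ _ _ _ hol hinj hnil hnt
  let b := Module.finBasis ℝ (E × ℝ)
  let f : G →* Module.End ℝ (E × ℝ) :=
    { toFun := fun g => lin1 (hol g)
      map_one' := by rw [map_one]; exact lin1_one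
      map_mul' := fun g h => by rw [map_mul]; exact lin1_mul _ _ }
  let e : Module.End ℝ (E × ℝ) ≃ₐ[ℝ]
      Matrix (Fin (Module.finrank ℝ (E × ℝ))) (Fin (Module.finrank ℝ (E × ℝ))) ℝ :=
    LinearMap.toMatrixAlgEquiv b
  let F : G →* Matrix (Fin (Module.finrank ℝ (E × ℝ))) (Fin (Module.finrank ℝ (E × ℝ))) ℝ :=
    (e : Module.End ℝ (E × ℝ) →*
      Matrix (Fin (Module.finrank ℝ (E × ℝ))) (Fin (Module.finrank ℝ (E × ℝ))) ℝ).comp f
  let ρ : G →* GL (Fin (Module.finrank ℝ (E × ℝ))) ℝ := F.toHomUnits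
  have hρ : ∀ g, (ρ g : Matrix (Fin (Module.finrank ℝ (E × ℝ))) (Fin (Module.finrank ℝ (E × ℝ))) ℝ) =
      e (lin1 (hol g)) := fun g => rfl
  have hK := Pool.Agent.Y759.TS.t_KOL ℝ G (Module.finrank ℝ (E × ℝ)) ρ (fun g => by
    rw [hρ, ← map_one e, ← map_sub]
    exact (lin1_nil (hnil g)).map e)
  refine exists_central ρ (fun g hg => ?_) hK
  have h1 : e (lin1 (hol g)) = e 1 := by
    rw [← hρ, hg, map_one]
    rfl
  have h2 := lin1_inj (e.injective h1)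
  exact hinj (by rw [h2, map_one])

end Pool.Agent.P8H97.TU
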