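import Pool.Agent.P8H67.TU.Stm

/-! Project TU, package LOG (helper97): the logarithm of a unipotent element -/

set_option autoImplicit false

namespace Pool.Agent.P8H97.TU

open Polynomial Finset

section
variable {R : Type} [NormedRing R] [NormedAlgebra ℝ R] [CompleteSpace R]

lemma exp_nil (x : R) (r : ℝ[X]) (h : IsNilpotent (aeval x r)) :
    ∃ s : ℝ[X], NormedSpace.exp (aeval x r) = aeval x (1 + r + r ^ 2 * s) := by
  obtain ⟨N, hN⟩ := h
  refine ⟨∑ k ∈ range N, C (((k + 2).factorial : ℝ)⁻¹) * r ^ k, ?_⟩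
  have h1 : NormedSpace.exp (aeval x r) =
      ∑ k ∈ range (N + 2), ((k.factorial : ℝ)⁻¹) • (aeval x r) ^ k := by
    rw [NormedSpace.exp_eq_tsum ℝ]
    refine tsum_eq_sum fun k hk => ?_
    rw [mem_range, not_lt] at hk
    have h2 : (aeval x r) ^ k = 0 := by
      have h3 : k = N + (k - N) := by omega
      rw [h3, pow_add, hN, zero_mul]
    rw [h2, smul_zero]
  rw [h1, sum_range_succ', sum_range_succ']
  simp only [map_add, map_mul, map_pow, map_sum, map_one, aeval_C, pow_zero, zero_add, pow_one,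
    Nat.factorial_zero, Nat.factorial_one, Nat.cast_one, inv_one, one_smul]
  rw [mul_sum]
  have h4 : ∀ k ∈ range N, (((k + 1 + 1).factorial : ℝ)⁻¹) • (aeval x r) ^ (k + 1 + 1) =
      (aeval x r) ^ 2 * (algebraMap ℝ R (((k + 2).factorial : ℝ)⁻¹) * (aeval x r) ^ k) := by
    intro k _
    rw [Algebra.smul_def, ← mul_assoc, ← Algebra.commutes, mul_assoc]
    congr 1
    rw [← pow_add]
    congr 1
    omega
  rw [sum_congr rfl h4]
  abel

lemma step (x : R) (hx : IsNilpotent x) (m : ℕ) : ∃ p q : ℝ[X],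
    NormedSpace.exp (aeval x (X * p)) = aeval x (1 + X + X ^ (m + 1) * q) := by
  letI : NormedAlgebra ℚ R := NormedAlgebra.restrictScalars ℚ ℝ R
  induction m with
  | zero =>
    refine ⟨0, -1, ?_⟩
    rw [mul_zero, map_zero, NormedSpace.exp_zero]
    simp
  | succ m ih =>
    obtain ⟨p, q, h⟩ := ih
    have hnil : IsNilpotent (aeval x (-(X ^ (m + 1) * q))) := by
      rw [map_neg, map_mul, map_pow, aeval_X, pow_succ']
      have hc : Commute x (x ^ m * aeval x q) := by
        refine (Commute.refl x).pow_right m |>.mul_right ?_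
        have h5 : Commute (aeval x (X : ℝ[X])) (aeval x q) := by
          rw [Commute, SemiconjBy, ← map_mul, ← map_mul, mul_comm]
        rwa [aeval_X] at h5
      rw [mul_assoc]
      exact (hc.isNilpotent_mul_right hx).neg
    obtain ⟨s, hs⟩ := exp_nil x _ hnil
    refine ⟨p - X ^ m * q, -q + X ^ m * (-q ^ 2 + (1 + X + X ^ (m + 1) * q) * (q ^ 2 * s)), ?_⟩
    have h1 : X * (p - X ^ m * q) = X * p + -(X ^ (m + 1) * q) := by ring
    have hc : Commute (aeval x (X * p)) (aeval x (-(X ^ (m + 1) * q))) := by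
      rw [Commute, SemiconjBy, ← map_mul, ← map_mul, mul_comm]
    rw [h1, map_add, NormedSpace.exp_add_of_commute hc, h, hs, ← map_mul]
    congr 1
    ring

theorem log : Pool.Agent.P8H67.TU.S_LOG := by
  intro R _ _ _ x hx
  obtain ⟨N, hN⟩ := id hx
  obtain ⟨p, q, h⟩ := step x hx N
  refine ⟨aeval x p, ?_, ?_⟩
  · rw [Algebra.adjoin_singleton_eq_range_aeval]
    exact ⟨p, rfl⟩
  · have h1 : aeval x (X * p) = x * aeval x p := by rw [map_mul, aeval_X]
    rw [← h1, h]
    simp [pow_succ, hN]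

end

end Pool.Agent.P8H97.TU
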